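import Mathlib

set_option autoImplicit false

/-! # Definitions: sums of functions of few digits, in several bases -/

namespace Pool.Agent.U286.DQ

/-- `u(n)` can be computed in one pass over the digits of `n` in base `g` with `Q` memory states: either
for every `k` the value `u(g ^ k n + r)` (`n ≥ 1`, `r < g ^ k`) depends only on `n` and on one of `Q`
states which is determined by `r` (the digits are read from the lowest one), or for every `k` it depends
only on `r` and on one of `Q` states which is determined by `n` (from the highest one) -/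
def OnePass (g Q : ℕ) (u : ℕ → ZMod 2) : Prop :=
  (∀ k : ℕ, ∃ (s : ℕ → Fin Q) (h : Fin Q → ℕ → ZMod 2), ∀ n r : ℕ, 1 ≤ n → r < g ^ k →
    u (g ^ k * n + r) = h (s r) n) ∨
  (∀ k : ℕ, ∃ (s : ℕ → Fin Q) (h : Fin Q → ℕ → ZMod 2), ∀ n r : ℕ, 1 ≤ n → r < g ^ k →
    u (g ^ k * n + r) = h (s n) r)

/-- the digit of `n` in base `g` at the place `j` (`j = 0` is the lowest) -/
def digit (g j n : ℕ) : ℕ := n / g ^ j % g

/-- `w(n)` depends only on at most `D` digits of `n` (each in a base of `𝓖`) and on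
`v_1(n), …, v_R(n)` -/
def Local (𝓖 : Finset ℕ) (D : ℕ) {R : ℕ} (v : Fin R → ℕ → ZMod 2) (w : ℕ → ZMod 2) : Prop :=
  ∃ S : Finset (ℕ × ℕ), S.card ≤ D ∧ (∀ p ∈ S, p.1 ∈ 𝓖) ∧
    ∀ n n' : ℕ, (∀ p ∈ S, digit p.1 p.2 n = digit p.1 p.2 n') → (∀ z, v z n = v z n') → w n = w n'

/-- `u` is a sum modulo 2 of arbitrarily many functions, each of which depends only on at most `D` digits
of `n` (each in a base of `𝓖`) and on `v_1(n), …, v_R(n)`, where the `v_z` are computed in one pass over
the digits of `n` in a base of `𝓖` with `Q` memory states -/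
def LocalSum (𝓖 : Finset ℕ) (D R Q : ℕ) (u : ℕ → ZMod 2) : Prop :=
  ∃ v : Fin R → ℕ → ZMod 2, (∀ z, ∃ g ∈ 𝓖, OnePass g Q (v z)) ∧
    ∃ (L : ℕ) (w : Fin L → ℕ → ZMod 2), (∀ l, Local 𝓖 D v (w l)) ∧ ∀ n, u n = ∑ l, w l n

end Pool.Agent.U286.DQ
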