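import Pool.Agent.U286.DQ.Rel

set_option autoImplicit false

/-! # Values of sums of local functions against a family of sequences closed under translations -/

namespace Pool.Agent.U286.DQ

open Finset

/-- bases, low places, digits -/
def trip (𝓖 : Finset ℕ) (k : ℕ) : Finset (ℕ × ℕ × ℕ) := 𝓖 ×ˢ range k ×ˢ range (𝓖.sup id)

theorem card_trip (𝓖 : Finset ℕ) (k : ℕ) : (trip 𝓖 k).card = (𝓖.card * 𝓖.sup id) * k := by
  unfold trip
  rw [card_product, card_product, card_range, card_range]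
  ring

theorem exists_rel (𝓖 : Finset ℕ) (h𝓖 : ∀ g ∈ 𝓖, 2 ≤ g) (D R Q M : ℕ) (hM : 0 < M) :
    ∃ k M' : ℕ, 0 < M' ∧ M ∣ M' ∧ ∀ (ρ : ℕ) (u : ℕ → ZMod 2), LocalSum 𝓖 D R Q u →
      ∀ κ : ZMod 2, ∃ Y : Finset ℕ, Y.Nonempty ∧ (∀ r ∈ Y, r < 2 ^ k ∧ r % M = ρ % M) ∧
        ∀ n, 1 ≤ n → ∑ r ∈ Y, (u (M' * n + r) + κ) = 0 := by
  classical
  obtain ⟨k0, hk0⟩ := exists_k (𝓖.card * 𝓖.sup id) M (Fintype.card (Ty R Q)) D
  set k := k0 + M with hk
  set M' := M * ∏ g ∈ 𝓖, g ^ k with hM'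
  have hpos : ∀ g ∈ 𝓖, 0 < g := fun g hg => by have := h𝓖 g hg; omega
  have hprod : 0 < ∏ g ∈ 𝓖, g ^ k := Finset.prod_pos fun g hg => pow_pos (hpos g hg) k
  have hdvd : ∀ g ∈ 𝓖, g ^ k ∣ M' := fun g hg =>
    (Finset.dvd_prod_of_mem (fun g => g ^ k) hg).trans (Dvd.intro_left _ rfl)
  refine ⟨k, M', Nat.mul_pos hM hprod, Dvd.intro _ rfl, fun ρ u hu κ => ?_⟩
  obtain ⟨v, hv, L, w, hw, hu⟩ := hu
  choose gz hgz hv using hv
  choose τ hτ using fun z => (hv z).types k
  set ty : ℕ → Ty R Q := fun r z => τ z r with hty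
  set rr : Fin (2 ^ k0) → ℕ := fun i => M * (i : ℕ) + ρ % M with hrr
  have hrinj : Function.Injective rr := by
    intro i j hij
    have h2 : M * (i : ℕ) = M * (j : ℕ) := by
      have : M * (i : ℕ) + ρ % M = M * (j : ℕ) + ρ % M := hij
      omega
    exact Fin.ext (Nat.eq_of_mul_eq_mul_left hM h2)
  have hlt : ∀ i, rr i < 2 ^ k := by
    intro i
    have h1 := Nat.mod_lt ρ hM
    have h2 := i.2
    have h3 : M < 2 ^ M := Nat.lt_two_pow_self
    calc rr i = M * (i : ℕ) + ρ % M := rfl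
      _ < M * (i : ℕ) + M := by omega
      _ = M * ((i : ℕ) + 1) := by ring
      _ ≤ 2 ^ M * 2 ^ k0 := Nat.mul_le_mul h3.le h2
      _ = 2 ^ k := by rw [hk, pow_add, mul_comm]
  have hltg : ∀ i, ∀ g ∈ 𝓖, rr i < g ^ k := fun i g hg =>
    (hlt i).trans_le (Nat.pow_le_pow_left (h𝓖 g hg) k)
  set e : Option (Ty R Q × {E // E ∈ low (trip 𝓖 k) D}) → Fin (2 ^ k0) → ZMod 2 :=
    fun o i => o.elim 1 fun q =>
      if ty (rr i) = q.1 ∧ ∀ p ∈ q.2.1, digit p.1 p.2.1 (rr i) = p.2.2 then 1 else 0 with he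
  obtain ⟨I, hI0, hI⟩ := exists_even (ι := Fin (2 ^ k0)) (by
    rw [Fintype.card_option, Fintype.card_prod, Fintype.card_coe, Fintype.card_fin]
    refine lt_of_le_of_lt ?_ hk0
    refine Nat.add_le_add_right (Nat.mul_le_mul_left _ ?_) _
    refine (card_low _ _).trans ?_
    rw [card_trip]) e
  refine ⟨I.image rr, hI0.image _, ?_, ?_⟩
  · intro r hr
    rw [mem_image] at hr
    obtain ⟨i, -, rfl⟩ := hr
    refine ⟨hlt i, ?_⟩
    show (M * (i : ℕ) + ρ % M) % M = _
    rw [Nat.mul_add_mod, Nat.mod_mod]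
  · intro n hn
    rw [Finset.sum_image (fun s _ s' _ hs => hrinj hs), Finset.sum_add_distrib]
    have h1 : ∑ i ∈ I, κ = 0 := by
      have h2 := hI none
      simp only [he, Option.elim_none] at h2
      have h3 : ∑ i ∈ I, κ = (∑ i ∈ I, (1 : ZMod 2)) * κ := by
        rw [Finset.sum_mul]
        exact Finset.sum_congr rfl fun _ _ => (one_mul _).symm
      rw [h3, h2, zero_mul]
    rw [h1, add_zero]
    simp only [hu]
    rw [Finset.sum_comm]
    apply Finset.sum_eq_zero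
    intro l _
    obtain ⟨S, hS1, hS2, hS3⟩ := hw l
    set E : Fin (2 ^ k0) → Finset (ℕ × ℕ × ℕ) := fun i =>
      (S.filter fun p => p.2 < k).image fun p => (p.1, p.2, digit p.1 p.2 (rr i)) with hE
    apply sum_classes I (fun i => (ty (rr i), E i))
    · intro i _ j _ hij
      have hij1 : ty (rr i) = ty (rr j) := congrArg Prod.fst hij
      have hij2 : E i = E j := congrArg Prod.snd hij
      apply hS3
      · intro p hp
        have hg := hS2 p hp
        obtain ⟨c, hc⟩ := hdvd p.1 hg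
        have hgp := hpos p.1 hg
        rw [hc, mul_assoc]
        by_cases hpk : p.2 < k
        · rw [digit_low hpk hgp, digit_low hpk hgp]
          have h2 : (p.1, p.2, digit p.1 p.2 (rr i)) ∈ E j := by
            rw [← hij2, hE]
            exact mem_image_of_mem _ (mem_filter.2 ⟨hp, hpk⟩)
          rw [hE] at h2
          simp only at h2
          rw [mem_image] at h2
          obtain ⟨p', -, hp'⟩ := h2
          simp only [Prod.mk.injEq] at hp'
          obtain ⟨e1, e2, e3⟩ := hp'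
          rw [← e3, e1, e2]
        · rw [digit_high (by omega) hgp (hltg i _ hg), digit_high (by omega) hgp (hltg j _ hg)]
      · intro z
        have hg := hgz z
        obtain ⟨c, hc⟩ := hdvd (gz z) hg
        have hc0 : 0 < c := by
          rcases Nat.eq_zero_or_pos c with h0 | h0
          · exfalso
            rw [h0, mul_zero] at hc
            have := Nat.mul_pos hM hprod
            rw [← hM', hc] at this
            exact lt_irrefl _ this
          · exact h0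
        rw [hc, mul_assoc]
        exact hτ z _ _ (hltg i _ hg) (hltg j _ hg) (congrFun hij1 z) (c * n) (Nat.mul_pos hc0 hn)
    · intro j _
      have hmem : E j ∈ low (trip 𝓖 k) D := by
        rw [mem_low]
        constructor
        · intro p hp
          rw [hE] at hp
          simp only at hp
          rw [mem_image] at hp
          obtain ⟨q, hq, rfl⟩ := hp
          rw [mem_filter] at hq
          unfold trip
          rw [mem_product, mem_product, mem_range, mem_range]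
          refine ⟨hS2 q hq.1, hq.2, ?_⟩
          have h2 : digit q.1 q.2 (rr j) < q.1 := Nat.mod_lt _ (hpos _ (hS2 q hq.1))
          exact h2.trans_le (Finset.le_sup (f := id) (hS2 q hq.1))
        · exact card_image_le.trans ((card_filter_le _ _).trans hS1)
      have h2 := hI (some (ty (rr j), ⟨E j, hmem⟩))
      refine Eq.trans ?_ h2
      refine Finset.sum_congr rfl fun i _ => ?_
      simp only [he, Option.elim_some]
      apply if_congr _ rfl rfl
      constructor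
      · intro hij
        have hij1 : ty (rr i) = ty (rr j) := congrArg Prod.fst hij
        have hij2 : E i = E j := congrArg Prod.snd hij
        refine ⟨hij1, fun p hp => ?_⟩
        rw [← hij2, hE] at hp
        simp only at hp
        rw [mem_image] at hp
        obtain ⟨q, -, rfl⟩ := hp
        rfl
      · rintro ⟨hij1, hij2⟩
        refine Prod.ext hij1 ?_
        show E i = E j
        rw [hE]
        simp only
        apply image_congr
        intro q hq
        have h3 : (q.1, q.2, digit q.1 q.2 (rr j)) ∈ E j := by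
          rw [hE]
          exact mem_image_of_mem _ (mem_coe.1 hq)
        have h4 := hij2 _ h3
        simp only at h4
        simp only [h4]

/-- **sums of local functions against a family closed under translations** -/
theorem main_abs (𝓖 : Finset ℕ) (h𝓖 : ∀ g ∈ 𝓖, 2 ≤ g) (D R Q M : ℕ) (hM : 0 < M) (a : ℕ)
    (𝒲 : ℕ → (ℕ → ZMod 2) → Prop) (h0 : ∀ K W, 𝒲 K W → 1 ≤ K)
    (h1 : ∀ (S : ℕ) (Y : Finset ℕ), Y.Nonempty → (∀ r ∈ Y, r < S) → ∀ K W, 𝒲 K W →
      𝒲 (K + a * S) (fun n => ∑ r ∈ Y, W (n + r)))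
    (h2 : ∀ M' : ℕ, 0 < M' → ∃ C : ℕ, ∀ K W, 𝒲 K W → ∀ A, ∃ n, A ≤ n ∧ n ≤ C * (A + K) ∧
      n ≡ 0 [MOD M'] ∧ W n = 1) :
    ∃ C : ℕ, ∀ K W, 𝒲 K W → ∀ (ρ : ℕ) (u : ℕ → ZMod 2), LocalSum 𝓖 D R Q u →
      ∀ (κ : ZMod 2) (A : ℕ), ∃ n, A ≤ n ∧ n ≤ C * (A + K) ∧ n ≡ ρ [MOD M] ∧ W n + u n = κ := by
  classical
  obtain ⟨k, M', hM'0, hMM', hrel⟩ := exists_rel 𝓖 h𝓖 D R Q M hM
  obtain ⟨C, hC⟩ := h2 M' hM'0
  refine ⟨C * (2 + a * 2 ^ k) + 2 ^ k, fun K W hW ρ u hu κ A => ?_⟩
  have hK := h0 K W hW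
  obtain ⟨Y, hY0, hY1, hY2⟩ := hrel ρ u hu (κ + 1)
  obtain ⟨N, hN1, hN2, hN3, hN4⟩ := hC _ _
    (h1 (2 ^ k) Y hY0 (fun r hr => (hY1 r hr).1) K W hW) (A + 1)
  have hdvd : M' ∣ N := (Nat.modEq_zero_iff_dvd).1 hN3
  obtain ⟨n, rfl⟩ := hdvd
  have hn : 1 ≤ n := by
    rcases Nat.eq_zero_or_pos n with h | h
    · rw [h, mul_zero] at hN1
      omega
    · exact h
  have hex : ∃ r ∈ Y, W (M' * n + r) + (u (M' * n + r) + (κ + 1)) = 1 := by
    by_contra hcon
    push Not at hcon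
    have h3 : ∑ r ∈ Y, (W (M' * n + r) + (u (M' * n + r) + (κ + 1))) = 0 :=
      Finset.sum_eq_zero fun r hr => zmod2_ne _ (hcon r hr)
    rw [Finset.sum_add_distrib, hY2 n hn, add_zero, hN4] at h3
    exact one_ne_zero h3
  obtain ⟨r, hr, hr1⟩ := hex
  obtain ⟨hr2, hr3⟩ := hY1 r hr
  refine ⟨M' * n + r, by omega, ?_, ?_, ?_⟩
  · have e1 : A + 1 + (K + a * 2 ^ k) ≤ (2 + a * 2 ^ k) * (A + K) := by
      nlinarith [Nat.zero_le (a * 2 ^ k * A), Nat.mul_le_mul_left (a * 2 ^ k) hK]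
    have e2 : 2 ^ k ≤ 2 ^ k * (A + K) := Nat.le_mul_of_pos_right _ (by omega)
    calc M' * n + r ≤ C * (A + 1 + (K + a * 2 ^ k)) + 2 ^ k := by omega
      _ ≤ C * ((2 + a * 2 ^ k) * (A + K)) + 2 ^ k * (A + K) :=
        Nat.add_le_add (Nat.mul_le_mul_left _ e1) e2
      _ = _ := by ring
  · have e1 : (M' * n + r) % M = r % M := by
      obtain ⟨c, hc⟩ := hMM'
      rw [hc, mul_assoc, Nat.mul_add_mod]
    show (M' * n + r) % M = ρ % M
    rw [e1, hr3]
  · have : ∀ w u κ : ZMod 2, w + (u + (κ + 1)) = 1 → w + u = κ := by decide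
    exact this _ _ _ hr1

end Pool.Agent.U286.DQ
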