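import Pool.Agent.U286.DQ.Def

set_option autoImplicit false

/-! # A linear relation between the values of sums of local functions -/

namespace Pool.Agent.U286.DQ

open Finset

/-- the subsets of at most `D` elements -/
def low {α : Type} (T : Finset α) (D : ℕ) : Finset (Finset α) :=
  T.powerset.filter fun S => S.card ≤ D

theorem mem_low {α : Type} (T : Finset α) (D : ℕ) (S : Finset α) :
    S ∈ low T D ↔ S ⊆ T ∧ S.card ≤ D := by
  unfold low
  rw [mem_filter, mem_powerset]

theorem card_low {α : Type} (T : Finset α) (D : ℕ) : (low T D).card ≤ (T.card + 1) ^ D := by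
  classical
  induction D with
  | zero =>
    have : low T 0 ⊆ {∅} := by
      intro S hS
      rw [mem_low, Nat.le_zero, card_eq_zero] at hS
      rw [mem_singleton]
      exact hS.2
    simpa using card_le_card this
  | succ D ih =>
    have hsub : low T (D + 1) ⊆ ((insertNone T) ×ˢ low T D).image
        fun p => p.1.elim p.2 fun x => insert x p.2 := by
      intro S hS
      rw [mem_low] at hS
      rw [mem_image]
      by_cases h : S.card ≤ D
      · refine ⟨(none, S), ?_, by simp⟩
        rw [mem_product, mem_low]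
        exact ⟨by simp, hS.1, h⟩
      · have hne : S.Nonempty := by
          rw [← card_pos]
          omega
        obtain ⟨x, hx⟩ := hne
        refine ⟨(some x, S.erase x), ?_, ?_⟩
        · rw [mem_product, mem_low, card_erase_of_mem hx]
          exact ⟨by simp [hS.1 hx], (erase_subset _ _).trans hS.1, by
            have := hS.2; show S.card - 1 ≤ D; omega⟩
        · show insert x (S.erase x) = S
          exact insert_erase hx
    calc (low T (D + 1)).card ≤ _ := card_le_card hsub
      _ ≤ ((insertNone T) ×ˢ low T D).card := card_image_le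
      _ = (T.card + 1) * (low T D).card := by rw [card_product, card_insertNone]
      _ ≤ (T.card + 1) * (T.card + 1) ^ D := Nat.mul_le_mul_left _ ih
      _ = (T.card + 1) ^ (D + 1) := by rw [pow_succ, mul_comm]

/-- the exponential beats the number of the classes -/
theorem exists_k (a b C D : ℕ) : ∃ k : ℕ, C * (a * (k + b) + 1) ^ D + 1 < 2 ^ k := by
  have h1 := tendsto_pow_const_div_const_pow_of_one_lt D (r := (2 : ℝ)) (by norm_num)
  have h2 : ∀ᶠ n : ℕ in Filter.atTop, (n : ℝ) ^ D / 2 ^ n <
      1 / ((C * (a + 1) ^ D + 2 : ℕ) * 2 ^ (b + 1)) :=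
    h1.eventually_lt_const (by positivity)
  obtain ⟨m, hm1, hm2⟩ := (h2.and (Filter.eventually_ge_atTop (b + 1))).exists
  refine ⟨m - (b + 1), ?_⟩
  have e1 : a * (m - (b + 1) + b) + 1 ≤ (a + 1) * m := by
    have : m - (b + 1) + b = m - 1 := by omega
    rw [this]
    obtain ⟨m', rfl⟩ : ∃ m', m = m' + 1 := ⟨m - 1, by omega⟩
    have : m' + 1 - 1 = m' := by omega
    rw [this]
    nlinarith
  have h3 : (m : ℝ) ^ D * ((C * (a + 1) ^ D + 2 : ℕ) * 2 ^ (b + 1)) < 2 ^ m := by
    rw [div_lt_div_iff₀ (by positivity) (by positivity), one_mul] at hm1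
    exact hm1
  have h4 : m ^ D * ((C * (a + 1) ^ D + 2) * 2 ^ (b + 1)) < 2 ^ m := by exact_mod_cast h3
  have h5 : 2 ^ m = 2 ^ (m - (b + 1)) * 2 ^ (b + 1) := by
    rw [← pow_add]
    congr 1
    omega
  have h6 : m ^ D * (C * (a + 1) ^ D + 2) < 2 ^ (m - (b + 1)) := by
    rw [h5, ← mul_assoc] at h4
    exact Nat.lt_of_mul_lt_mul_right h4
  have h7 : 1 ≤ m ^ D := Nat.one_le_pow _ _ (by omega)
  calc C * (a * (m - (b + 1) + b) + 1) ^ D + 1 ≤ C * ((a + 1) * m) ^ D + 1 :=
        Nat.add_le_add_right (Nat.mul_le_mul_left _ (Nat.pow_le_pow_left e1 _)) _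
    _ = m ^ D * (C * (a + 1) ^ D) + 1 := by rw [mul_pow]; ring
    _ ≤ m ^ D * (C * (a + 1) ^ D + 2) := by
        rw [mul_add]
        omega
    _ < _ := h6

theorem OnePass.types {g Q : ℕ} {u : ℕ → ZMod 2} (h : OnePass g Q u) (k : ℕ) :
    ∃ τ : ℕ → Fin Q ⊕ (Fin Q → ZMod 2), ∀ r r' : ℕ, r < g ^ k → r' < g ^ k → τ r = τ r' →
      ∀ n, 1 ≤ n → u (g ^ k * n + r) = u (g ^ k * n + r') := by
  rcases h with h | h
  · obtain ⟨s, f, hf⟩ := h k
    refine ⟨fun r => Sum.inl (s r), fun r r' hr hr' e n hn => ?_⟩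
    rw [hf n r hn hr, hf n r' hn hr', Sum.inl_injective e]
  · obtain ⟨s, f, hf⟩ := h k
    refine ⟨fun r => Sum.inr fun q => f q r, fun r r' hr hr' e n hn => ?_⟩
    rw [hf n r hn hr, hf n r' hn hr']
    exact congrFun (Sum.inr_injective e) (s n)

/-- the types of the outputs of `R` computations with `Q` states -/
abbrev Ty (R Q : ℕ) : Type := Fin R → Fin Q ⊕ (Fin Q → ZMod 2)

theorem digit_low {g j k n r : ℕ} (hj : j < k) (hg : 0 < g) :
    digit g j (g ^ k * n + r) = digit g j r := by
  unfold digit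
  have h1 : g ^ k = g ^ j * (g * g ^ (k - j - 1)) := by
    rw [← pow_succ', ← pow_add]
    congr 1
    omega
  have h2 : (g ^ k * n + r) / g ^ j = g * (g ^ (k - j - 1) * n) + r / g ^ j := by
    rw [h1, mul_assoc, Nat.mul_add_div (by positivity), mul_assoc]
  rw [h2, Nat.mul_add_mod]

theorem digit_high {g j k n r : ℕ} (hj : k ≤ j) (hg : 0 < g) (hr : r < g ^ k) :
    digit g j (g ^ k * n + r) = digit g j (g ^ k * n) := by
  unfold digit
  have h1 : g ^ j = g ^ k * g ^ (j - k) := by
    rw [← pow_add]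
    congr 1
    omega
  have hk : 0 < g ^ k := by positivity
  have h2 : (g ^ k * n + r) / g ^ j = (g ^ k * n) / g ^ j := by
    rw [h1, ← Nat.div_div_eq_div_mul, ← Nat.div_div_eq_div_mul, Nat.mul_add_div hk,
      Nat.div_eq_of_lt hr, add_zero, Nat.mul_div_cancel_left _ hk]
  rw [h2]

theorem zmod2_ne (a : ZMod 2) (h : a ≠ 1) : a = 0 := by
  revert h a
  decide

/-- linear algebra: a nonempty set with even intersection with all of few sets -/
theorem exists_even {ι J : Type} [Fintype ι] [Fintype J] (h : Fintype.card J < Fintype.card ι)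
    (e : J → ι → ZMod 2) : ∃ I : Finset ι, I.Nonempty ∧ ∀ j, ∑ i ∈ I, e j i = 0 := by
  classical
  set f : (ι → ZMod 2) →ₗ[ZMod 2] (J → ZMod 2) :=
    { toFun := fun y j => ∑ i, y i * e j i
      map_add' := fun y y' => by
        funext j
        simp [add_mul, Finset.sum_add_distrib]
      map_smul' := fun a y => by
        funext j
        simp [Finset.mul_sum, mul_assoc] } with hf
  have hker : LinearMap.ker f ≠ ⊥ := by
    apply LinearMap.ker_ne_bot_of_finrank_lt
    simpa using h
  obtain ⟨y, hy, hy0⟩ := (Submodule.ne_bot_iff _).1 hker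
  refine ⟨univ.filter fun i => y i = 1, ?_, fun j => ?_⟩
  · by_contra hcon
    apply hy0
    funext i
    apply zmod2_ne
    intro hi
    apply hcon
    exact ⟨i, by rw [mem_filter]; exact ⟨mem_univ _, hi⟩⟩
  · have h1 := congrFun (LinearMap.mem_ker.1 hy) j
    have h2 : ∑ i, y i * e j i = 0 := h1
    rw [← h2, Finset.sum_filter]
    refine Finset.sum_congr rfl fun i _ => ?_
    by_cases hi : y i = 1
    · rw [if_pos hi, hi, one_mul]
    · rw [if_neg hi, zmod2_ne _ hi, zero_mul]

/-- the sum of a function over a set which has even intersections with its classes vanishes -/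
theorem sum_classes {ι τ : Type} [DecidableEq τ] (I : Finset ι) (cl : ι → τ) (w : ι → ZMod 2)
    (hw : ∀ i ∈ I, ∀ j ∈ I, cl i = cl j → w i = w j)
    (hI : ∀ j ∈ I, ∑ i ∈ I, (if cl i = cl j then (1 : ZMod 2) else 0) = 0) :
    ∑ i ∈ I, w i = 0 := by
  classical
  rw [← Finset.sum_fiberwise_of_maps_to (s := I) (t := I.image cl) (g := cl)
    (fun i hi => mem_image_of_mem _ hi)]
  apply Finset.sum_eq_zero
  intro c hc
  rw [mem_image] at hc
  obtain ⟨j, hj, rfl⟩ := hc
  have h1 : ∀ i ∈ I.filter (fun i => cl i = cl j), w i = w j := by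
    intro i hi
    rw [mem_filter] at hi
    exact hw i hi.1 j hj hi.2
  rw [Finset.sum_congr rfl h1, Finset.sum_const, nsmul_eq_mul]
  have h2 := hI j hj
  rw [Finset.sum_boole] at h2
  rw [h2, zero_mul]

end Pool.Agent.U286.DQ
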