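import Pool.Agent.U286.DQ.Main

set_option autoImplicit false

/-! # Sums of translates of a pattern -/

namespace Pool.Agent.U286.DQ

open Finset

/-- a sum of translates (by the multiples `m r`, `r ∈ Y`) of a nonzero pattern is a nonzero pattern -/
theorem exists_sum (m : ℕ) (hm : 0 < m) (K S K' : ℕ) (hK' : K + m * S ≤ K') (Y : Finset ℕ)
    (hY : Y.Nonempty) (hYS : ∀ r ∈ Y, r < S) (c : ℕ → ZMod 2) :
    ∃ c' : ℕ → ZMod 2, ((∃ i < K, c i ≠ 0) → ∃ i < K', c' i ≠ 0) ∧
      ∀ φ : ℕ → ZMod 2, ∑ i ∈ range K', c' i * φ i =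
        ∑ r ∈ Y, ∑ i ∈ range K, c i * φ (m * r + i) := by
  classical
  set P : Polynomial (ZMod 2) := ∑ r ∈ Y, Polynomial.X ^ (m * r) with hP
  set Z : Polynomial (ZMod 2) := ∑ i ∈ range K, Polynomial.C (c i) * Polynomial.X ^ i with hZ
  have hPZ : P * Z = ∑ r ∈ Y, ∑ i ∈ range K, Polynomial.C (c i) * Polynomial.X ^ (m * r + i) := by
    rw [hP, hZ, Finset.sum_mul]
    refine Finset.sum_congr rfl fun r _ => ?_
    rw [Finset.mul_sum]
    refine Finset.sum_congr rfl fun i _ => ?_
    rw [pow_add]
    ring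
  have hP0 : P ≠ 0 := by
    intro h
    obtain ⟨r, hr⟩ := hY
    have h2 := congrArg (fun q => Polynomial.coeff q (m * r)) h
    simp only [hP, Polynomial.finsetSum_coeff, Polynomial.coeff_X_pow, Polynomial.coeff_zero] at h2
    rw [Finset.sum_eq_single r] at h2
    · rw [if_pos rfl] at h2
      exact one_ne_zero h2
    · intro r' _ hr'
      rw [if_neg]
      intro h
      exact hr' (Nat.eq_of_mul_eq_mul_left hm h).symm
    · intro h
      exact absurd hr h
  have hlt : ∀ r ∈ Y, ∀ i < K, m * r + i < K' := by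
    intro r hr i hi
    have h1 : m * r ≤ m * S := Nat.mul_le_mul_left _ (hYS r hr).le
    omega
  have hZc : ∀ i < K, Z.coeff i = c i := by
    intro i hi
    rw [hZ, Polynomial.finsetSum_coeff]
    simp only [Polynomial.coeff_C_mul, Polynomial.coeff_X_pow]
    rw [Finset.sum_eq_single i]
    · rw [if_pos rfl, mul_one]
    · intro j _ hj
      rw [if_neg (fun h => hj h.symm), mul_zero]
    · intro h
      exact absurd (mem_range.2 hi) h
  have hdeg : ∀ j, K' ≤ j → (P * Z).coeff j = 0 := by
    intro j hj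
    rw [hPZ, Polynomial.finsetSum_coeff]
    apply Finset.sum_eq_zero
    intro r hr
    rw [Polynomial.finsetSum_coeff]
    apply Finset.sum_eq_zero
    intro i hi
    rw [Polynomial.coeff_C_mul, Polynomial.coeff_X_pow, if_neg, mul_zero]
    have := hlt r hr i (mem_range.1 hi)
    omega
  refine ⟨fun i => (P * Z).coeff i, ?_, ?_⟩
  · rintro ⟨i, hi, hci⟩
    have hZ0 : Z ≠ 0 := by
      intro h
      apply hci
      rw [← hZc i hi, h, Polynomial.coeff_zero]
    have hPZ0 := mul_ne_zero hP0 hZ0
    obtain ⟨j, hj⟩ : ∃ j, (P * Z).coeff j ≠ 0 := by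
      by_contra hcon
      push Not at hcon
      apply hPZ0
      ext j
      rw [hcon j, Polynomial.coeff_zero]
    refine ⟨j, ?_, hj⟩
    by_contra hcon
    exact hj (hdeg j (by omega))
  · intro φ
    have h1 : ∀ j, (P * Z).coeff j = ∑ r ∈ Y, ∑ i ∈ range K,
        if j = m * r + i then c i else 0 := by
      intro j
      rw [hPZ, Polynomial.finsetSum_coeff]
      refine Finset.sum_congr rfl fun r _ => ?_
      rw [Polynomial.finsetSum_coeff]
      refine Finset.sum_congr rfl fun i _ => ?_
      rw [Polynomial.coeff_C_mul, Polynomial.coeff_X_pow]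
      split_ifs <;> simp
    simp only [h1, Finset.sum_mul]
    rw [Finset.sum_comm]
    refine Finset.sum_congr rfl fun r hr => ?_
    rw [Finset.sum_comm]
    refine Finset.sum_congr rfl fun i hi => ?_
    rw [Finset.sum_eq_single (m * r + i)]
    · rw [if_pos rfl]
    · intro j _ hj
      rw [if_neg hj, zero_mul]
    · intro h
      exact absurd (mem_range.2 (hlt r hr i (mem_range.1 hi))) h

end Pool.Agent.U286.DQ
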